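import Pool.Agent.Helper62.NT.Goals

/-!
# Packet FZL of project NT: existence of a far node
-/

set_option autoImplicit false

namespace Pool.Agent.Helper67.NT.FZL

open Pool.Agent.Helper62.NT Metric Set

theorem t (hRTB : S_RTB) : S_FZL := by
  intro H _ D A x n t g hxA hn hg hgt htx hnear
  obtain ⟨hdep, -, hres, -, -, -, -, -, -, hdist, -⟩ := hRTB H D.R
  have hne : A.Nonempty := ⟨x, hxA⟩
  have hB : (20 : ℝ) ≤ D.B := by exact_mod_cast D.hB
  have hσ : 0 < D.s (n + 1) := by
    unfold CD.s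
    have := D.hΔ
    positivity
  have hsn : D.s n = D.B * D.s (n + 1) := by
    unfold CD.s
    have h0 : (D.B : ℝ) ≠ 0 := by
      have : (0 : ℝ) < D.B := by linarith
      exact this.ne'
    rw [pow_succ]
    field_simp
  set f : ℝ → ℝ := fun τ => infDist (D.R.res x τ) A with hf
  -- the function `f` does not increase distances
  have hlip1 : ∀ s u, 0 ≤ s → s ≤ u → u ≤ D.R.dep x → |f s - f u| ≤ u - s := by
    intro s u h1 h2 h3
    have h4 := hdist x s u h1 h2 h3
    have h5 : infDist (D.R.res x s) A ≤ infDist (D.R.res x u) A + dist (D.R.res x s) (D.R.res x u) :=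
      infDist_le_infDist_add_dist
    have h6 : infDist (D.R.res x u) A ≤ infDist (D.R.res x s) A + dist (D.R.res x u) (D.R.res x s) :=
      infDist_le_infDist_add_dist
    rw [dist_comm] at h6
    rw [h4] at h5 h6
    rw [abs_le]
    constructor
    · show -(u - s) ≤ infDist (D.R.res x s) A - infDist (D.R.res x u) A
      linarith
    · show infDist (D.R.res x s) A - infDist (D.R.res x u) A ≤ u - s
      linarith
  have ht0 : 0 ≤ t := by linarith
  have hcont : ContinuousOn f (Icc t (D.R.dep x)) := by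
    refine LipschitzOnWith.continuousOn (K := 1) (LipschitzOnWith.of_dist_le_mul ?_)
    intro a ha b hb
    rw [NNReal.coe_one, one_mul, Real.dist_eq, Real.dist_eq]
    rcases le_total a b with hab | hab
    · rw [abs_sub_comm a b, abs_of_nonneg (sub_nonneg.2 hab)]
      exact hlip1 a b (ht0.trans ha.1) hab hb.2
    · rw [abs_sub_comm (f a), abs_of_nonneg (sub_nonneg.2 hab)]
      exact hlip1 b a (ht0.trans hb.1) hab ha.2
  have hft : D.s n / 8 ≤ f t := by
    refine (le_infDist hne).2 fun {q} hq => ?_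
    by_contra hcon
    exact hnear ⟨q, hq, (not_le.1 hcon).le⟩
  have hfx : f (D.R.dep x) = 0 := by
    show infDist (D.R.res x (D.R.dep x)) A = 0
    rw [D.R.res_dep]
    exact infDist_zero_of_mem hxA
  have hmem : D.s n / 16 ∈ Icc (f (D.R.dep x)) (f t) := by
    rw [hfx]
    have : 0 < D.s n := by rw [hsn]; positivity
    constructor <;> linarith
  obtain ⟨t', ⟨ht1, ht2⟩, ht3⟩ := intermediate_value_Icc' htx hcont hmem
  have ht' : 0 < t' := by linarith
  have h1 := hlip1 t' (D.R.dep x) ht'.le ht2 le_rfl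
  rw [hfx, sub_zero, ht3, hsn] at h1
  have h1' := (abs_le.1 h1).2
  -- the node
  set k : ℕ := ⌈t' / D.s (n + 1)⌉₊ with hk
  have hk1 : t' ≤ k * D.s (n + 1) := by
    have := Nat.le_ceil (t' / D.s (n + 1))
    rwa [div_le_iff₀ hσ] at this
  have hk2 : k * D.s (n + 1) < t' + D.s (n + 1) := by
    have := Nat.ceil_lt_add_one (div_nonneg ht'.le hσ.le)
    rw [← hk] at this
    have h2 := mul_lt_mul_of_pos_right this hσ
    rwa [add_mul, one_mul, div_mul_cancel₀ _ hσ.ne'] at h2
  have hk0 : 1 ≤ k := Nat.one_le_ceil_iff.2 (div_pos ht' hσ)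
  have hBs : 20 * D.s (n + 1) ≤ D.B * D.s (n + 1) := mul_le_mul_of_nonneg_right hB hσ.le
  have hkx : (k : ℝ) * D.s (n + 1) ≤ D.R.dep x := by linarith
  have hk00 : (0 : ℝ) ≤ k * D.s (n + 1) := by linarith
  have hdv : D.R.dep (D.R.res x (k * D.s (n + 1))) = k * D.s (n + 1) := D.R.dep_res x _ hk00 hkx
  have h2 := abs_le.1 (hlip1 t' (k * D.s (n + 1)) ht'.le hk1 hkx)
  rw [ht3, hsn] at h2
  have h3 : infDist (D.R.res x (k * D.s (n + 1))) A = f (k * D.s (n + 1)) := rfl
  refine ⟨(n + 1, D.R.res x (k * D.s (n + 1))), ⟨Nat.le_add_left 1 n, ⟨k, hk0, hdv⟩, ?_, ?_⟩, rfl,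
    (hres x _ hk00 hkx).1, ?_⟩
  · show D.s (n + 1) / 8 < infDist (D.R.res x (k * D.s (n + 1))) A
    rw [h3]
    linarith [h2.1, h2.2]
  · show infDist (D.R.res x (k * D.s (n + 1))) A ≤ D.s (n + 1 - 1) / 8
    rw [h3, Nat.add_sub_cancel, hsn]
    linarith [h2.1, h2.2]
  · show g < D.R.dep (D.R.res x (k * D.s (n + 1)))
    rw [hdv]
    linarith

end Pool.Agent.Helper67.NT.FZL
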